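import Pool.Agent.H22.FOT.Defs

/-! Row CNT of the board `fot`. -/

open MeasureTheory unitInterval Set Filter Topology

namespace Pool.FOT

namespace Cnt62

variable {V Ω : Type}

theorem sVal_upd [DecidableEq V] (f : Ω → Ω → ℝ) (hf : ∀ x y, f x y = f y x) (x : V → Ω) (v : V)
    (t : Ω) (e : Sym2 V) (he : v ∉ e) : sVal f hf (Function.update x v t) e = sVal f hf x e := by
  induction e using Sym2.ind with
  | _ i j =>
    rw [Sym2.mem_iff, not_or] at he
    rw [sVal_mk, sVal_mk, Function.update_of_ne (Ne.symm he.1), Function.update_of_ne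
      (Ne.symm he.2)]

variable [MeasurableSpace Ω]

theorem sVal_meas [Fintype V] (W : GK Ω) (e : Sym2 V) :
    Measurable fun x : V → Ω => sVal W W.symm' x e := by
  induction e using Sym2.ind with
  | _ i j =>
    have h : Measurable (fun x : V → Ω => (x i, x j)) :=
      (measurable_pi_apply i).prodMk (measurable_pi_apply j)
    exact Measurable.comp (g := fun z : Ω × Ω => W z.1 z.2) W.measurable' h

theorem sVal_icc (W : GK Ω) (x : V → Ω) (e : Sym2 V) : sVal W W.symm' x e ∈ Icc (0 : ℝ) 1 := by
  induction e using Sym2.ind with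
  | _ i j => exact ⟨W.nonneg' _ _, W.le_one' _ _⟩

end Cnt62

open Cnt62 in
theorem t_cnt (hS : STPStmt) : CNTStmt := by
  classical
  intro V Ω _ _ μ _ F hF W W' δ hcut
  -- the mixed product
  obtain ⟨ψ, hψ⟩ : ∃ ψ : Finset (Sym2 V) → Sym2 V → (V → Ω) → ℝ, ψ = fun G e x =>
      if e ∈ G then sVal W W.symm' x e else sVal W' W'.symm' x e := ⟨_, rfl⟩
  have ψm : ∀ G e, Measurable (ψ G e) := by
    intro G e
    rw [hψ]
    by_cases h : e ∈ G
    · simp only [h, if_true]
      exact sVal_meas W e
    · simp only [h, if_false]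
      exact sVal_meas W' e
  have ψi : ∀ G e x, ψ G e x ∈ Icc (0 : ℝ) 1 := by
    intro G e x
    rw [hψ]
    by_cases h : e ∈ G
    · simp only [h, if_true]
      exact sVal_icc W x e
    · simp only [h, if_false]
      exact sVal_icc W' x e
  have ψu : ∀ G e x v t, v ∉ e → ψ G e (Function.update x v t) = ψ G e x := by
    intro G e x v t he
    rw [hψ]
    by_cases h : e ∈ G
    · simp only [h, if_true]
      exact sVal_upd W W.symm' x v t e he
    · simp only [h, if_false]
      exact sVal_upd W' W'.symm' x v t e he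
  have Pm : ∀ G (R : Finset (Sym2 V)), Measurable fun x : V → Ω => ∏ e ∈ R, ψ G e x :=
    fun G R => Finset.measurable_prod _ fun e _ => ψm G e
  have Pi : ∀ G (R : Finset (Sym2 V)) (x : V → Ω), ∏ e ∈ R, ψ G e x ∈ Icc (0 : ℝ) 1 :=
    fun G R x => ⟨Finset.prod_nonneg fun e _ => (ψi G e x).1,
      Finset.prod_le_one (fun e _ => (ψi G e x).1) fun e _ => (ψi G e x).2⟩
  have hint : ∀ (f : (V → Ω) → ℝ), Measurable f → (∀ x, |f x| ≤ 1) →
      Integrable f (Measure.pi fun _ => μ) := fun f hf h1 =>
    Integrable.of_bound hf.aestronglyMeasurable 1 (Filter.Eventually.of_forall fun x => by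
      rw [Real.norm_eq_abs]
      exact h1 x)
  have key : ∀ G : Finset (Sym2 V), G ⊆ F →
      |∫ x : V → Ω, ∏ e ∈ F, ψ G e x ∂(Measure.pi fun _ => μ) -
        ∫ x : V → Ω, ∏ e ∈ F, ψ ∅ e x ∂(Measure.pi fun _ => μ)| ≤ G.card * δ := by
    intro G
    induction G using Finset.induction_on with
    | empty =>
      intro _
      rw [sub_self, abs_zero, Finset.card_empty, Nat.cast_zero, zero_mul]
    | insert e₀ G he ih =>
      intro hG
      have h1 := ih fun e h => hG (Finset.mem_insert_of_mem h)
      have he0 : e₀ ∈ F := hG (Finset.mem_insert_self _ _)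
      rw [Finset.card_insert_of_notMem he, Nat.cast_succ, add_mul, one_mul]
      have h2 : |∫ x : V → Ω, ∏ e ∈ F, ψ (insert e₀ G) e x ∂(Measure.pi fun _ => μ) -
          ∫ x : V → Ω, ∏ e ∈ F, ψ G e x ∂(Measure.pi fun _ => μ)| ≤ δ := by
        have e1 : ∀ x : V → Ω, ∏ e ∈ F, ψ (insert e₀ G) e x - ∏ e ∈ F, ψ G e x =
            (sVal W W.symm' x e₀ - sVal W' W'.symm' x e₀) * ∏ e ∈ F.erase e₀, ψ G e x := by
          intro x
          rw [← Finset.mul_prod_erase F _ he0, ← Finset.mul_prod_erase F (fun e => ψ G e x) he0]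
          have k1 : ψ (insert e₀ G) e₀ x = sVal W W.symm' x e₀ := by
            rw [hψ]
            simp only [Finset.mem_insert_self, if_true]
          have k2 : ψ G e₀ x = sVal W' W'.symm' x e₀ := by
            rw [hψ]
            simp only [he, if_false]
          have k3 : ∏ e ∈ F.erase e₀, ψ (insert e₀ G) e x = ∏ e ∈ F.erase e₀, ψ G e x := by
            refine Finset.prod_congr rfl fun e h => ?_
            have hne : e ≠ e₀ := Finset.ne_of_mem_erase h
            rw [hψ]
            simp only [Finset.mem_insert, hne, false_or]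
          rw [k1, k2, k3]
          ring
        rw [← integral_sub (hint _ (Pm _ F) fun x => abs_le.2 ⟨by linarith [(Pi (insert e₀ G) F x).1],
          (Pi (insert e₀ G) F x).2⟩) (hint _ (Pm _ F) fun x => abs_le.2
          ⟨by linarith [(Pi G F x).1], (Pi G F x).2⟩)]
        simp only [e1]
        have hnd := hF e₀ he0
        induction e₀ using Sym2.ind with
        | _ u v =>
          have huv : u ≠ v := by
            intro h
            exact hnd (by rw [h]; exact Sym2.diag_isDiag v)
          have k4 := hS V Ω μ (fun x y => W x y - W' x y) 1 δ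
            (W.measurable'.sub W'.measurable') (fun x y => abs_le.2
              ⟨by linarith [W.nonneg' x y, W'.le_one' x y],
                by linarith [W'.nonneg' x y, W.le_one' x y]⟩) hcut u v huv
            (fun x => ∏ e ∈ (F.erase s(u, v)).filter (fun e => v ∉ e), ψ G e x)
            (fun x => ∏ e ∈ (F.erase s(u, v)).filter (fun e => ¬ v ∉ e), ψ G e x)
            (Pm _ _) (Pm _ _) (Pi _ _) (Pi _ _)
            (fun x t => Finset.prod_congr rfl fun e h =>
              ψu _ _ _ _ _ (Finset.mem_filter.1 h).2)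
            (fun x t => Finset.prod_congr rfl fun e h => by
              obtain ⟨h5, h6⟩ := Finset.mem_filter.1 h
              rw [not_not] at h6
              refine ψu _ _ _ _ _ fun h7 => ?_
              exact Finset.ne_of_mem_erase h5 ((Sym2.mem_and_mem_iff huv).1 ⟨h7, h6⟩))
          refine le_trans (le_of_eq ?_) k4
          congr 1
          refine integral_congr_ae (Filter.Eventually.of_forall fun x => ?_)
          simp only [sVal_mk]
          rw [Finset.prod_filter_mul_prod_filter_not]
      calc _ ≤ |∫ x : V → Ω, ∏ e ∈ F, ψ (insert e₀ G) e x ∂(Measure.pi fun _ => μ) -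
            ∫ x : V → Ω, ∏ e ∈ F, ψ G e x ∂(Measure.pi fun _ => μ)| +
          |∫ x : V → Ω, ∏ e ∈ F, ψ G e x ∂(Measure.pi fun _ => μ) -
            ∫ x : V → Ω, ∏ e ∈ F, ψ ∅ e x ∂(Measure.pi fun _ => μ)| := abs_sub_le _ _ _
        _ ≤ _ := by linarith
  have h1 := key F (Finset.Subset.refl _)
  have e1 : ∀ x : V → Ω, ∏ e ∈ F, ψ F e x = ∏ e ∈ F, sVal W W.symm' x e := fun x =>
    Finset.prod_congr rfl fun e he => by
      rw [hψ]
      simp only [he, if_true]
  have e2 : ∀ x : V → Ω, ∏ e ∈ F, ψ ∅ e x = ∏ e ∈ F, sVal W' W'.symm' x e := fun x =>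
    Finset.prod_congr rfl fun e he => by
      rw [hψ]
      simp only [Finset.notMem_empty, if_false]
  simp only [e1, e2] at h1
  exact h1

end Pool.FOT
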