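import Pool.Agent.H22.FOT.Defs

/-! Rows DEN and ATT of the board `fot`. -/

open MeasureTheory unitInterval Set Filter Topology

namespace Pool.FOT

open Pool.Agent.H99.LowerTail

theorem t_den : DENStmt := by
  intro X _ _ _ _ _ m _ f hf h01 ε hε
  letI := TopologicalSpace.metrizableSpaceMetric X
  have hi : Integrable f m := Integrable.of_bound hf.aestronglyMeasurable 1
    (Filter.Eventually.of_forall fun x => by
      rw [Real.norm_eq_abs, abs_of_nonneg (h01 x).1]
      exact (h01 x).2)
  obtain ⟨g, hg, hgi⟩ := hi.exists_boundedContinuous_integral_sub_le hε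
  refine ⟨⟨fun x => max 0 (min (g x) 1), by fun_prop⟩, fun x => ⟨le_max_left _ _,
    max_le zero_le_one (min_le_right _ _)⟩, ?_⟩
  refine le_trans (integral_mono_of_nonneg (Filter.Eventually.of_forall fun x => abs_nonneg _)
    ((hi.sub hgi).norm) (Filter.Eventually.of_forall fun x => ?_)) hg
  show |f x - max 0 (min (g x) 1)| ≤ ‖f x - g x‖
  rw [Real.norm_eq_abs]
  obtain ⟨h0, h1⟩ := h01 x
  rcases le_total (g x) 1 with h | h
  · rw [min_eq_left h]
    rcases le_total 0 (g x) with h' | h'
    · rw [max_eq_right h']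
    · rw [max_eq_left h', sub_zero, abs_of_nonneg h0, abs_of_nonneg (by linarith)]
      linarith
  · rw [min_eq_right h, max_eq_right zero_le_one, abs_of_nonpos (by linarith),
      abs_of_nonpos (by linarith)]
    linarith

theorem t_att (hC : CPTStmt) : ATTStmt := by
  intro V _ H p q hp0 hp1 hq0
  obtain ⟨Z, hZ⟩ : ∃ Z : Graphon, Z = ⟨fun _ _ => 0, measurable_const, fun _ _ => rfl,
    fun _ _ => le_rfl, fun _ _ => zero_le_one⟩ := ⟨_, rfl⟩
  have hnn : ∀ W : Graphon, 0 ≤ cost p W := fun W =>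
    integral_nonneg fun z => relEnt_nonneg hp0 hp1 (W.nonneg' _ _) (W.le_one' _ _)
  have hZf : homDensity H Z ≤ q ^ numEdges H := by
    rcases Nat.eq_zero_or_pos (numEdges H) with h | h
    · rw [h, pow_zero]
      unfold homDensity
      refine (integral_mono (integrable_prod_edgeVal H Z) (integrable_const 1) fun x =>
        Finset.prod_le_one (fun e _ => edgeVal_nonneg Z x e) (fun e _ => edgeVal_le_one Z x e)).trans
        ?_
      simp
    · have h1 : homDensity H Z = 0 := by
        unfold homDensity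
        refine (integral_congr_ae (Filter.Eventually.of_forall fun x => ?_)).trans
          (integral_zero _ _)
        unfold numEdges at h
        obtain ⟨e, he⟩ := Finset.card_pos.1 h
        refine Finset.prod_eq_zero he ?_
        rw [hZ]
        induction e using Sym2.ind with
        | _ i j => rfl
      rw [h1]
      positivity
  obtain ⟨A, hA⟩ : ∃ A : Set ℝ, A = cost p '' {W | homDensity H W ≤ q ^ numEdges H} := ⟨_, rfl⟩
  have hAb : BddBelow A := ⟨0, by
    rw [hA]
    rintro x ⟨W, -, rfl⟩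
    exact hnn W⟩
  have hAn : A.Nonempty := ⟨cost p Z, by
    rw [hA]
    exact ⟨Z, hZf, rfl⟩⟩
  have h1 : ∀ n : ℕ, ∃ W : Graphon, homDensity H W ≤ q ^ numEdges H ∧
      cost p W < sInf A + 1 / ((n : ℝ) + 1) := by
    intro n
    obtain ⟨x, hx, hlt⟩ := exists_lt_of_csInf_lt hAn
      (lt_add_of_pos_right (sInf A) (by positivity : (0 : ℝ) < 1 / ((n : ℝ) + 1)))
    rw [hA] at hx
    obtain ⟨W, hW, rfl⟩ := hx
    exact ⟨W, hW, hlt⟩
  choose W hW1 hW2 using h1
  obtain ⟨W0, h2, -, h3⟩ := hC p hp0 hp1 W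
  refine ⟨W0, le_of_tendsto' (h2 V H) hW1, fun W' hW' => ?_⟩
  have h4 : sInf A ≤ cost p W' := csInf_le hAb (by
    rw [hA]
    exact ⟨W', hW', rfl⟩)
  refine le_trans ?_ h4
  refine le_of_forall_pos_le_add fun ε hε => h3 _ ?_
  have h5 : ∀ᶠ n : ℕ in atTop, cost p (W n) ≤ sInf A + ε := by
    obtain ⟨N, hN⟩ := exists_nat_one_div_lt hε
    filter_upwards [eventually_ge_atTop N] with n hn
    have h6 : 1 / ((n : ℝ) + 1) ≤ 1 / ((N : ℝ) + 1) := by
      have : (N : ℝ) ≤ n := by exact_mod_cast hn
      exact one_div_le_one_div_of_le (by positivity) (by linarith)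
    linarith [hW2 n]
  exact Nat.hyperfilter_le_atTop h5

end Pool.FOT
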