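import Pool.Agent.H22.FOT.Defs

/-! Rows UPD and STP of the board `fot`. -/

open MeasureTheory unitInterval Set Filter Topology

namespace Pool.FOT

theorem t_upd : UPDStmt := by
  intro V Ω _ _ _ μ _ v
  have hm : Measurable (fun z : (V → Ω) × Ω => Function.update z.1 v z.2) := by
    rw [measurable_pi_iff]
    intro i
    by_cases h : i = v
    · subst h
      simpa using measurable_snd
    · simp only [Function.update_of_ne h]
      exact (measurable_pi_apply i).comp measurable_fst
  refine ⟨hm, ?_⟩
  symm
  refine Measure.pi_eq fun s hs => ?_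
  rw [Measure.map_apply hm (MeasurableSet.univ_pi hs)]
  have e : (fun z : (V → Ω) × Ω => Function.update z.1 v z.2) ⁻¹' (Set.univ.pi s) =
      (Set.univ.pi (Function.update s v Set.univ)) ×ˢ (s v) := by
    ext z
    simp only [Set.mem_preimage, Set.mem_pi, Set.mem_univ, true_implies, Set.mem_prod]
    constructor
    · intro h
      refine ⟨fun i => ?_, by simpa using h v⟩
      by_cases hi : i = v
      · subst hi
        simp
      · have := h i
        simpa [Function.update_of_ne hi] using this
    · rintro ⟨h1, h2⟩ i
      by_cases hi : i = v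
      · subst hi
        simpa using h2
      · have := h1 i
        simpa [Function.update_of_ne hi] using this
  rw [e, Measure.prod_prod, Measure.pi_pi, ← Finset.mul_prod_erase Finset.univ _
    (Finset.mem_univ v), ← Finset.mul_prod_erase Finset.univ (fun i => μ (s i))
    (Finset.mem_univ v)]
  have h1 : ∏ x ∈ Finset.univ.erase v, μ (Function.update s v Set.univ x) =
      ∏ x ∈ Finset.univ.erase v, μ (s x) := by
    refine Finset.prod_congr rfl fun i hi => ?_
    rw [Function.update_of_ne (Finset.ne_of_mem_erase hi)]
  rw [h1, Function.update_self, measure_univ, one_mul, mul_comm]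

theorem t_stp (hU : UPDStmt) : STPStmt := by
  intro V Ω _ _ _ μ _ D C δ hD hC hcut u v huv A B hA hB hA1 hB1 hAv hBu
  obtain ⟨f, hf⟩ : ∃ f : (V → Ω) → ℝ, f = fun x => D (x u) (x v) * (A x * B x) := ⟨_, rfl⟩
  have hfm : Measurable f := by
    rw [hf]
    exact (hD.comp ((measurable_pi_apply u).prodMk (measurable_pi_apply v))).mul (hA.mul hB)
  have hC0 : 0 ≤ C := (abs_nonneg _).trans (hC (Classical.choice
    (MeasureTheory.nonempty_of_isProbabilityMeasure μ)) (Classical.choice
    (MeasureTheory.nonempty_of_isProbabilityMeasure μ)))
  have hfb : ∀ x, |f x| ≤ C := by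
    intro x
    rw [hf]
    simp only [abs_mul]
    have h1 : |A x| ≤ 1 := abs_le.2 ⟨by linarith [(hA1 x).1], (hA1 x).2⟩
    have h2 : |B x| ≤ 1 := abs_le.2 ⟨by linarith [(hB1 x).1], (hB1 x).2⟩
    calc |D (x u) (x v)| * (|A x| * |B x|) ≤ C * (1 * 1) :=
          mul_le_mul (hC _ _) (mul_le_mul h1 h2 (abs_nonneg _) zero_le_one)
            (mul_nonneg (abs_nonneg _) (abs_nonneg _)) hC0
      _ = C := by ring
  have step : ∀ (g : (V → Ω) → ℝ) (w : V), Measurable g → (∀ x, |g x| ≤ C) →
      ∫ x, g x ∂(Measure.pi fun _ => μ) =
        ∫ x, ∫ t, g (Function.update x w t) ∂μ ∂(Measure.pi fun _ => μ) := by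
    intro g w hg hgb
    have h1 := hU V Ω μ w
    have hgm : AEStronglyMeasurable g (Measure.map (fun z : (V → Ω) × Ω =>
      Function.update z.1 w z.2) ((Measure.pi fun _ => μ).prod μ)) := by
      rw [h1.map_eq]
      exact hg.aestronglyMeasurable
    have h2 := integral_map h1.measurable.aemeasurable hgm
    rw [h1.map_eq] at h2
    rw [h2, integral_prod]
    refine Integrable.of_bound (hg.comp h1.measurable).aestronglyMeasurable C
      (Filter.Eventually.of_forall fun z => ?_)
    rw [Real.norm_eq_abs]
    exact hgb _
  have e1 := step f u hfm hfb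
  obtain ⟨g, hg⟩ : ∃ g : (V → Ω) → ℝ, g = fun x => ∫ t, f (Function.update x u t) ∂μ := ⟨_, rfl⟩
  have hum : ∀ w : V, Measurable (fun z : (V → Ω) × Ω => Function.update z.1 w z.2) :=
    fun w => (hU V Ω μ w).measurable
  have hgm : Measurable g := by
    rw [hg]
    exact ((hfm.comp (hum u)).stronglyMeasurable.integral_prod_right').measurable
  have hgb : ∀ x, |g x| ≤ C := by
    intro x
    rw [hg]
    have h1 := norm_integral_le_of_norm_le_const (μ := μ) (C := C)
      (f := fun t => f (Function.update x u t)) (Filter.Eventually.of_forall fun t => by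
        rw [Real.norm_eq_abs]
        exact hfb _)
    simpa using h1
  have e2 := step g v hgm hgb
  have e3 : ∫ x, f x ∂(Measure.pi fun _ => μ) =
      ∫ x, ∫ t, g (Function.update x v t) ∂μ ∂(Measure.pi fun _ => μ) := by
    rw [← e2, hg]
    exact e1
  have key : ∀ x, |∫ t, g (Function.update x v t) ∂μ| ≤ δ := by
    intro x
    have hx1 : Measurable (fun s : Ω => Function.update x u s) := measurable_update x
    have hx2 : Measurable (fun s : Ω => Function.update x v s) := measurable_update x
    have h1 := hcut (fun s => A (Function.update x u s)) (fun t => B (Function.update x v t))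
      (hA.comp hx1) (hB.comp hx2) (fun s => hA1 _) (fun t => hB1 _)
    have h2 : ∫ t, g (Function.update x v t) ∂μ = ∫ z : Ω × Ω, D z.1 z.2 *
        A (Function.update x u z.1) * B (Function.update x v z.2) ∂(μ.prod μ) := by
      have hi : Integrable (fun z : Ω × Ω => D z.1 z.2 * A (Function.update x u z.1) *
          B (Function.update x v z.2)) (μ.prod μ) := by
        refine Integrable.of_bound ((hD.mul ((hA.comp hx1).comp measurable_fst)).mul
          ((hB.comp hx2).comp measurable_snd)).aestronglyMeasurable C
          (Filter.Eventually.of_forall fun z => ?_)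
        rw [Real.norm_eq_abs, abs_mul, abs_mul]
        have h1 : |A (Function.update x u z.1)| ≤ 1 :=
          abs_le.2 ⟨by linarith [(hA1 (Function.update x u z.1)).1], (hA1 _).2⟩
        have h2 : |B (Function.update x v z.2)| ≤ 1 :=
          abs_le.2 ⟨by linarith [(hB1 (Function.update x v z.2)).1], (hB1 _).2⟩
        calc |D z.1 z.2| * |A (Function.update x u z.1)| * |B (Function.update x v z.2)| ≤
              C * 1 * 1 := mul_le_mul (mul_le_mul (hC _ _) h1 (abs_nonneg _) hC0) h2
              (abs_nonneg _) (by linarith)
          _ = C := by ring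
      rw [integral_prod_symm _ hi]
      refine integral_congr_ae (Filter.Eventually.of_forall fun t => ?_)
      rw [hg, hf]
      refine integral_congr_ae (Filter.Eventually.of_forall fun s => ?_)
      simp only
      have k1 : Function.update (Function.update x v t) u s u = s := Function.update_self ..
      have k2 : Function.update (Function.update x v t) u s v = t := by
        rw [Function.update_of_ne huv.symm, Function.update_self]
      have k3 : A (Function.update (Function.update x v t) u s) = A (Function.update x u s) := by
        rw [Function.update_comm huv.symm, hAv]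
      have k4 : B (Function.update (Function.update x v t) u s) = B (Function.update x v t) :=
        hBu _ _
      rw [k1, k2, k3, k4, mul_assoc]
    rw [h2]
    exact h1
  have hδ : |∫ x, f x ∂(Measure.pi fun _ => μ)| ≤ δ := by
    rw [e3]
    have h1 := norm_integral_le_of_norm_le_const (μ := Measure.pi fun _ : V => μ) (C := δ)
      (f := fun x => ∫ t, g (Function.update x v t) ∂μ) (Filter.Eventually.of_forall fun x => by
        rw [Real.norm_eq_abs]
        exact key x)
    simpa using h1
  rw [hf] at hδ
  exact hδ

end Pool.FOT
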